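import Pool.Agent.Lib.MP_75b31c_lc.D40.Iface

set_option autoImplicit false

/-!
# Borel determinacy, modules CLPAY and CLSTR (MP_75b31c_lc, Part A)
-/

namespace Pool.Agent.Lib.MP_75b31c_lc.D40.H59

open Pool.Agent.Lib.MP_75b31c_lc.D40

theorem mv_child {T : GT} {k : ℕ} {C : Set T.Q} {σ : (clT T k C).Q → (clT T k C).Q}
    (h : IsStrat (clT T k C) σ) (s : Pos T) : Child T s.q (mv T k C σ s).q := by
  unfold mv
  split_ifs with hv
  · have h1 := h ⟨s, hv⟩
    refine ⟨h1.1, ?_⟩
    have h2 := congrArg (fun t : (clT T k C).Q => t.1.q) h1.2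
    exact h2
  · exact dflt_spec T s.q

theorem rho_strat (T : GT) (j : Bool) (A G : Set T.Q) (q : T.Q) : IsStrat T (rho T j A G q) := by
  unfold rho
  split_ifs with h
  · exact (Classical.choose_spec h).1
  · exact dflt_spec T

theorem clstr : CLSTR_S := by
  intro T k C j σ h q
  unfold phi
  split_ifs with hj
  · unfold phiII
    dsimp only
    split_ifs <;> first | exact mv_child h ⟨q, _, _⟩ | exact rho_strat T _ _ _ _ q
  · unfold phiI
    dsimp only
    split_ifs <;>
      first | exact mv_child h ⟨q, _, _⟩ | exact rho_strat T _ _ _ _ q | exact dflt_spec T q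

theorem branch_res {T : GT} {x : ℕ → T.Q} (hx : Branch T x) (m n : ℕ) :
    T.res m (x n) = x (min m n) := by
  induction n with
  | zero =>
    rw [T.res_self _ _ (by rw [(hx 0).1]; omega)]
    simp
  | succ n ih =>
    rcases Nat.lt_or_ge n m with h | h
    · rw [T.res_self _ _ (by rw [(hx (n + 1)).1]; omega), min_eq_right (by omega)]
    · rw [show T.res m (x (n + 1)) = T.res m (T.res n (x (n + 1))) by
        rw [T.res_res, min_eq_left h], (hx n).2, ih, min_eq_left h, min_eq_left (by omega)]

theorem clpay : CLPAY_S := by
  intro T k C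
  refine ⟨2 * k + 2, {s : (clT T k C).Q | ∃ B, s.1.o = Opt.s B}, fun y hy => ?_⟩
  have hlen : ∀ n, T.len (y n).1.q = n := fun n => (hy n).1
  have hres : ∀ m n, cut T (2 * k) m (y n).1 = (y (min m n)).1 := fun m n =>
    congrArg Subtype.val (branch_res hy m n)
  have hq : ∀ m n, T.res m (y n).1.q = (y (min m n)).1.q := fun m n =>
    congrArg Pos.q (hres m n)
  have hself : ∀ {q : T.Q}, q ∈ TX T C → q ∈ C := fun {q} h => by
    have := h (T.len q)
    rwa [T.res_self _ _ le_rfl] at this
  constructor
  · intro h
    rcases (y (2 * k + 2)).2.opt (by rw [hlen]) with ⟨p, h1, h2, h3, h4, h5, h6⟩ | ⟨B, h1, h2, h3⟩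
    · exfalso
      have ho : (y (T.len p)).1.o = Opt.u p := by
        have := congrArg Pos.o (hres (2 * k + 2) (T.len p))
        rw [min_eq_left h5, h1] at this
        unfold cut at this
        simp only at this
        rw [hlen, min_eq_left h5, if_neg (by omega)] at this
        exact this
      have hval := (y (T.len p)).2
      rcases hval.opt (by rw [hlen]; exact h5) with ⟨p', g1, g2, g3, g4, g5, g6⟩ | ⟨B, g1, _⟩
      · rw [ho] at g1
        have hp : p = p' := by injection g1
        subst hp
        have hpe : p = (y (T.len p)).1.q := by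
          unfold Compar at g6
          rw [hlen] at g6
          rcases g6 with g6 | g6
          · rw [T.res_self _ _ le_rfl] at g6
            exact g6
          · rw [T.res_self _ _ (by rw [hlen])] at g6
            exact g6.symm
        apply h3
        intro m
        rw [hpe, hq]
        exact h _
      · rw [ho] at g1
        cases g1
    · exact ⟨B, h1⟩
  · rintro ⟨B, hB⟩
    have hbig : ∀ n, 2 * k + 2 ≤ n → (y n).1.q ∈ TX T C := by
      intro n hn
      have ho : (y n).1.o = Opt.s B := by
        have := congrArg Pos.o (hres (2 * k + 2) n)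
        rw [min_eq_left hn, hB] at this
        unfold cut at this
        simp only at this
        rw [hlen, min_eq_left hn, if_neg (by omega)] at this
        exact this
      rcases (y n).2.opt (by rw [hlen]; exact hn) with ⟨p', g1, _⟩ | ⟨B', g1, g2, g3⟩
      · rw [ho] at g1
        cases g1
      · exact (g2.sub _ g3).2
    intro n
    show (y n).1.q ∈ C
    rcases Nat.lt_or_ge n (2 * k + 2) with hn | hn
    · have h1 := TX_res (hbig (2 * k + 2) le_rfl) n
      rw [hq, min_eq_left hn.le] at h1
      exact hself h1
    · exact hself (hbig n hn)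

end Pool.Agent.Lib.MP_75b31c_lc.D40.H59
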